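import Pool.Agent.Lib.MP_7f190d_al.Interfaces
import Pool.Agent.Lib.MP_7f190d_al.Basic

/-!
# MP_7f190d_al, project Burnside: module Z (centralizers)

We work in the quotient `Q = Γ / ⟨z⟩`, which acts on `X`.
-/

set_option autoImplicit false
set_option linter.style.haveILetI false

namespace Pool.Agent.Lib.MP_7f190d_al.H77

open Pool.Agent.Lib.MP_7f190d_al

/-- the stage hypotheses for `Q = Γ / ⟨z⟩`. -/
structure QStage (Q X : Type) [Group Q] [MulAction Q X] (M : GMet X) (D L A T : ℕ) : Prop where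
  hD : 1 ≤ D
  hL : 10000 * D ≤ L
  iso : Iso Q M
  hyp : M.Hyp D
  A1 : ∀ (g₁ g₂ : Q) (x y : X), M.d x (g₁ • x) ≤ L → M.d y (g₁ • y) ≤ L →
    M.d x (g₂ • x) ≤ L → M.d y (g₂ • y) ≤ L → A ≤ M.d x y → Commute g₁ g₂
  A2 : ∀ (g : Q) (x y : X), g ≠ 1 → IsOfFinOrder g →
    M.d x (g • x) ≤ L → M.d y (g • y) ≤ L → M.d x y < A
  A3 : ∀ g : Q, ¬ IsOfFinOrder g → ∀ (x : X) (m : ℕ), m ≤ T * M.d x (g ^ m • x)

section

variable {Q X : Type} [Group Q] [MulAction Q X] {M : GMet X} {D L A T : ℕ}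

/-- powers of an element of infinite order move `x` arbitrarily far. -/
lemma QStage.far (h : QStage Q X M D L A T) {c : Q} (hc : ¬ IsOfFinOrder c) (x : X) (B : ℕ) :
    ∃ N : ℕ, B ≤ M.d x (c ^ N • x) := by
  refine ⟨T * B + 1, ?_⟩
  have h1 := h.A3 c hc x (T * B + 1)
  by_contra hlt
  push Not at hlt
  have : T * M.d x (c ^ (T * B + 1) • x) ≤ T * B := Nat.mul_le_mul_left _ hlt.le
  omega

/-- elements of the centralizer move `c ^ N • x` as much as `x`. -/
lemma disp_comm (hiso : Iso Q M) {c a : Q} (hca : Commute a c) (x : X) (N : ℕ) :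
    M.d (c ^ N • x) (a • c ^ N • x) = M.d x (a • x) := by
  have h1 : a • c ^ N • x = c ^ N • a • x := by
    rw [smul_smul, smul_smul, (hca.pow_right N).eq]
  rw [h1, hiso]

/-- two points in the middle of a long geodesic from `x` to `c ^ N • x`. -/
lemma QStage.mid (h : QStage Q X M D L A T) {c : Q} (hc : ¬ IsOfFinOrder c) (x : X) (R B : ℕ) :
    ∃ (N : ℕ) (p q : X), M.Btw x p (c ^ N • x) ∧ M.Btw x q (c ^ N • x) ∧ R ≤ M.d x p ∧
      R ≤ M.d p (c ^ N • x) ∧ R ≤ M.d x q ∧ R ≤ M.d q (c ^ N • x) ∧ B ≤ M.d p q := by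
  obtain ⟨N, hN⟩ := h.far hc x (2 * R + B)
  obtain ⟨p, hp1, hp2⟩ := M.geod x (c ^ N • x) R (by omega)
  obtain ⟨q, hq1, hq2⟩ := M.geod x (c ^ N • x) (R + B) (by omega)
  have htri := M.tri x p q
  refine ⟨N, p, q, ?_, ?_, ?_, ?_, ?_, ?_, ?_⟩
  · unfold GMet.Btw; omega
  · unfold GMet.Btw; omega
  all_goals omega

/-- commutators of elements of the centralizer move the middle points very little. -/
lemma QStage.comm_mid (h : QStage Q X M D L A T) (hI2 : I2Statement) {c : Q}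
    (hc : ¬ IsOfFinOrder c) (x : X) (R : ℕ) :
    ∃ (p q : X), A ≤ M.d p q ∧ ∀ a b : Q, Commute a c → Commute b c → M.d x (a • x) ≤ R →
      M.d x (b • x) ≤ R → M.d p ((a * b * a⁻¹ * b⁻¹) • p) ≤ 200 * D ∧
        M.d q ((a * b * a⁻¹ * b⁻¹) • q) ≤ 200 * D := by
  obtain ⟨N, p, q, hp, hq, h1, h2, h3, h4, h5⟩ := h.mid hc x (3 * R + 200 * D) A
  refine ⟨p, q, h5, fun a b ha hb hxa hxb => ⟨?_, ?_⟩⟩
  · exact hI2 Q X M D h.hyp h.iso a b x (c ^ N • x) p R hxa
      (by rw [disp_comm h.iso ha]; exact hxa) hxb (by rw [disp_comm h.iso hb]; exact hxb) hp h1 h2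
  · exact hI2 Q X M D h.hyp h.iso a b x (c ^ N • x) q R hxa
      (by rw [disp_comm h.iso ha]; exact hxa) hxb (by rw [disp_comm h.iso hb]; exact hxb) hq h3 h4

/-- an element all of whose powers move some point (depending on the power) by at most `200 D` has
finite order. -/
lemma QStage.fin_of_small (h : QStage Q X M D L A T) {f : Q}
    (hf : ∀ m : ℕ, ∃ p : X, M.d p (f ^ m • p) ≤ 200 * D) : IsOfFinOrder f := by
  by_contra hfin
  obtain ⟨p, hp⟩ := hf (T * (200 * D) + 1)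
  have h1 := h.A3 f hfin p (T * (200 * D) + 1)
  have h2 : T * M.d p (f ^ (T * (200 * D) + 1) • p) ≤ T * (200 * D) := Nat.mul_le_mul_left _ hp
  omega

/-- a commutator of elements of the centralizer which has finite order is trivial. -/
lemma QStage.comm_fin (h : QStage Q X M D L A T) (hI2 : I2Statement) {c : Q}
    (hc : ¬ IsOfFinOrder c) (x : X) {a b : Q} (ha : Commute a c) (hb : Commute b c)
    (hfin : IsOfFinOrder (a * b * a⁻¹ * b⁻¹)) : a * b * a⁻¹ * b⁻¹ = 1 := by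
  by_contra hne
  obtain ⟨p, q, hpq, hall⟩ := h.comm_mid hI2 hc x (M.d x (a • x) + M.d x (b • x))
  obtain ⟨h1, h2⟩ := hall a b ha hb (by omega) (by omega)
  have hL := h.hL
  have := h.A2 _ p q hne hfin (by omega) (by omega)
  omega

/-- step (3): `a` commutes with the commutator `[a,b]`. -/
lemma QStage.step3 (h : QStage Q X M D L A T) (hI2 : I2Statement) {c : Q}
    (hc : ¬ IsOfFinOrder c) (x : X) {a b : Q} (ha : Commute a c) (hb : Commute b c) :
    Commute a (a * b * a⁻¹ * b⁻¹) := by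
  set e := a * b * a⁻¹ * b⁻¹ with he
  have hce : Commute e c := ((ha.mul_left hb).mul_left ha.inv_left).mul_left hb.inv_left
  have hb' : Commute (a * b * a⁻¹) c := (ha.mul_left hb).mul_left ha.inv_left
  have he' : a * e * a⁻¹ = a * (a * b * a⁻¹) * a⁻¹ * (a * b * a⁻¹)⁻¹ := by
    rw [he]; group
  have hcomm : Commute (a * e * a⁻¹) e := by
    obtain ⟨p, q, hpq, hall⟩ := h.comm_mid hI2 hc x
      (M.d x (a • x) + M.d x (b • x) + M.d x ((a * b * a⁻¹) • x))
    obtain ⟨h1, h2⟩ := hall a b ha hb (by omega) (by omega)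
    rw [← he] at h1 h2
    obtain ⟨h3, h4⟩ := hall a (a * b * a⁻¹) ha hb' (by omega) (by omega)
    have hL := h.hL
    refine h.A1 _ _ p q ?_ ?_ ?_ ?_ hpq
    · rw [he']; omega
    · rw [he']; omega
    · omega
    · omega
  have hpow : ∀ m : ℕ, (a * e * a⁻¹ * e⁻¹) ^ m = a * e ^ m * a⁻¹ * (e ^ m)⁻¹ := by
    intro m
    rw [(hcomm.inv_right).mul_pow, conj_pow, inv_pow]
  have hfin : IsOfFinOrder (a * e * a⁻¹ * e⁻¹) := by
    apply h.fin_of_small
    intro m
    obtain ⟨p, q, -, hall⟩ := h.comm_mid hI2 hc x (M.d x (a • x) + M.d x (e ^ m • x))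
    refine ⟨p, ?_⟩
    rw [hpow]
    exact (hall a (e ^ m) ha (hce.pow_left m) (by omega) (by omega)).1
  have h1 := h.comm_fin hI2 hc x ha hce hfin
  have h2 : a * e * a⁻¹ = e := by
    rw [mul_inv_eq_one] at h1; exact h1
  rw [mul_inv_eq_iff_eq_mul] at h2
  exact h2

/-- step (4): the centralizer of `c` is commutative. -/
lemma QStage.step4 (h : QStage Q X M D L A T) (hI2 : I2Statement) {c : Q}
    (hc : ¬ IsOfFinOrder c) (x : X) {a b : Q} (ha : Commute a c) (hb : Commute b c) :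
    Commute a b := by
  set e := a * b * a⁻¹ * b⁻¹ with he
  have hae : Commute a e := h.step3 hI2 hc x ha hb
  have hab : a * b = e * b * a := by rw [he]; group
  have hpow : ∀ m : ℕ, a ^ m * b = e ^ m * b * a ^ m := by
    intro m
    induction m with
    | zero => simp
    | succ m ih =>
      calc a ^ (m + 1) * b = a * (a ^ m * b) := by rw [pow_succ', mul_assoc]
        _ = a * (e ^ m * b * a ^ m) := by rw [ih]
        _ = (a * e ^ m) * b * a ^ m := by simp only [mul_assoc]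
        _ = (e ^ m * a) * b * a ^ m := by rw [(hae.pow_right m).eq]
        _ = e ^ m * (a * b) * a ^ m := by simp only [mul_assoc]
        _ = e ^ m * (e * b * a) * a ^ m := by rw [hab]
        _ = (e ^ m * e) * b * (a * a ^ m) := by simp only [mul_assoc]
        _ = e ^ (m + 1) * b * a ^ (m + 1) := by rw [← pow_succ, ← pow_succ']
  have hpow' : ∀ m : ℕ, e ^ m = a ^ m * b * (a ^ m)⁻¹ * b⁻¹ := by
    intro m
    rw [hpow m]; group
  have hfin : IsOfFinOrder e := by
    apply h.fin_of_small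
    intro m
    obtain ⟨p, q, -, hall⟩ := h.comm_mid hI2 hc x (M.d x (a ^ m • x) + M.d x (b • x))
    refine ⟨p, ?_⟩
    rw [hpow']
    exact (hall (a ^ m) b (ha.pow_left m) hb (by omega) (by omega)).1
  have h1 := h.comm_fin hI2 hc x ha hb hfin
  rw [← he] at h1
  rw [h1, one_mul] at hab
  -- `a * b = b * a`
  exact hab

/-- step (5): the centralizer of `c` is torsion-free. -/
lemma QStage.step5 (h : QStage Q X M D L A T) (hI7 : I7Statement) {c : Q}
    (hc : ¬ IsOfFinOrder c) (x : X) {f : Q} (hf : Commute f c) (hfin : IsOfFinOrder f) :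
    f = 1 := by
  by_contra hne
  obtain ⟨N, p, q, hp, hq, h1, h2, h3, h4, h5⟩ := h.mid hc x (2 * M.d x (f • x) + 100 * D) A
  have hy : M.d (c ^ N • x) (f • c ^ N • x) ≤ M.d x (f • x) := (disp_comm h.iso hf x N).le
  have hm : ∃ m : ℕ, 1 ≤ m ∧ ∀ v : X, f ^ m • v = v := by
    rw [isOfFinOrder_iff_pow_eq_one] at hfin
    obtain ⟨m, hm, hm1⟩ := hfin
    exact ⟨m, hm, fun v => by rw [hm1, one_smul]⟩
  have hL := h.hL
  have hD := h.hD
  have h6 := hI7 Q X M D h.hyp h.iso f x (c ^ N • x) p _ hm le_rfl hy hp h1 h2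
  have h7 := hI7 Q X M D h.hyp h.iso f x (c ^ N • x) q _ hm le_rfl hy hq h3 h4
  have := h.A2 f p q hne hfin (by omega) (by omega)
  omega

lemma disp_mul (hiso : Iso Q M) (a b : Q) (x : X) :
    M.d x ((a * b) • x) ≤ M.d x (a • x) + M.d x (b • x) := by
  have h1 := M.tri x (a • x) ((a * b) • x)
  rw [mul_smul] at h1 ⊢
  rw [hiso] at h1
  exact h1

lemma disp_pow (hiso : Iso Q M) (a : Q) (x : X) (m : ℕ) :
    M.d x (a ^ m • x) ≤ m * M.d x (a • x) := by
  induction m with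
  | zero => simp [M.self]
  | succ m ih =>
    have := disp_mul hiso (a ^ m) a x
    rw [pow_succ]
    calc M.d x ((a ^ m * a) • x) ≤ M.d x (a ^ m • x) + M.d x (a • x) := this
      _ ≤ m * M.d x (a • x) + M.d x (a • x) := by omega
      _ = (m + 1) * M.d x (a • x) := by ring

/-- step (6): a power of `g` with a bounded exponent is in `⟨c⟩`. -/
lemma QStage.step6 (h : QStage Q X M D L A T) (hI1 : I1Statement)
    (hI7 : I7Statement) {c : Q} (hc : ¬ IsOfFinOrder c) (x : X) {g : Q}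
    (hg : Commute g c) :
    ∃ s : ℕ, 1 ≤ s ∧ s ≤ 2 * (30 * D * T + 1) * M.d x (c • x) ∧ g ^ s ∈ Subgroup.zpowers c := by
  set m₀ := 30 * D * T + 1 with hm₀
  set a := M.d x (c • x) with ha
  set G := M.d x (g • x) with hG
  set K := 2 * m₀ * a with hK
  set J := 2 * m₀ * K * G + 10 * D + 1 with hJ
  set R := m₀ * (K * G + J * a) with hR
  obtain ⟨N, p, -, hp, -, h1, h2, -, -, -⟩ := h.mid hc x (R + 10 * D) A
  -- the elements
  let u : ℕ × ℕ → Q := fun ij => g ^ (m₀ * ij.1) * c ^ (m₀ * ij.2)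
  have hu_comm : ∀ ij, Commute (u ij) c := fun ij =>
    (hg.pow_left _).mul_left ((Commute.refl c).pow_left _)
  have hu : ∀ ij : ℕ × ℕ, ij.1 ≤ K → ij.2 ≤ J → M.d x (u ij • x) ≤ R := by
    intro ij hi hj
    calc M.d x (u ij • x) ≤ M.d x (g ^ (m₀ * ij.1) • x) + M.d x (c ^ (m₀ * ij.2) • x) :=
          disp_mul h.iso _ _ _
      _ ≤ m₀ * ij.1 * G + m₀ * ij.2 * a := add_le_add (disp_pow h.iso _ _ _) (disp_pow h.iso _ _ _)
      _ ≤ m₀ * K * G + m₀ * J * a := by gcongr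
      _ = R := by rw [hR]; ring
  have hq : ∀ ij : ℕ × ℕ, ∃ q, ij.1 ≤ K → ij.2 ≤ J → (M.Btw x q (c ^ N • x) ∧
      M.d (u ij • p) q ≤ 10 * D ∧ M.d x q ≤ M.d x p + R ∧ M.d x p ≤ M.d x q + R + 10 * D) := by
    intro ij
    by_cases hcase : ij.1 ≤ K ∧ ij.2 ≤ J
    · obtain ⟨q, hq⟩ := hI1 Q X M D h.hyp h.iso (u ij) x (c ^ N • x) p R
        (hu ij hcase.1 hcase.2)
        (by rw [disp_comm h.iso (hu_comm ij)]; exact hu ij hcase.1 hcase.2) hp h1 h2
      exact ⟨q, fun _ _ => hq⟩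
    · exact ⟨x, fun h1 h2 => absurd ⟨h1, h2⟩ hcase⟩
  choose q hq using hq
  -- pigeonhole
  have hcard : (Finset.Icc (M.d x p - (R + 10 * D)) (M.d x p + R)).card <
      ((Finset.range (K + 1)) ×ˢ (Finset.range (J + 1))).card := by
    rw [Nat.card_Icc, Finset.card_product, Finset.card_range, Finset.card_range]
    have e1 : (K + 1) * (J + 1) = K * J + K + J + 1 := by ring
    have e2 : K * J = 2 * (m₀ * (J * a)) := by rw [hK]; ring
    have e3 : J = 2 * (m₀ * (K * G)) + 10 * D + 1 := by rw [hJ]; ring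
    have e4 : R = m₀ * (K * G) + m₀ * (J * a) := by rw [hR]; ring
    rw [e1]
    omega
  obtain ⟨v, hv, w, hw, hvw, heq⟩ := Finset.exists_ne_map_eq_of_card_lt_of_maps_to hcard
    (f := fun ij => M.d x (q ij)) (by
      intro ij hij
      simp only [Finset.coe_product, Finset.coe_range, Set.mem_prod, Set.mem_Iio] at hij
      obtain ⟨-, -, h3, h4⟩ := hq ij (by omega) (by omega)
      simp only [Finset.coe_Icc, Set.mem_Icc]
      omega)
  simp only [Finset.mem_product, Finset.mem_range] at hv hw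
  obtain ⟨hv1, hv2, -, -⟩ := hq v (by omega) (by omega)
  obtain ⟨hw1, hw2, -, -⟩ := hq w (by omega) (by omega)
  have heq' : M.d x (q v) = M.d x (q w) := heq
  have hyy : M.d (q v) (c ^ N • x) = M.d (q w) (c ^ N • x) := by
    unfold GMet.Btw at hv1 hw1; omega
  have hclose : M.d (q v) (q w) ≤ 0 + 4 * D := by
    refine GMet.B3 X M D h.hyp x (c ^ N • x) x (c ^ N • x) (q v) (q w) 0 hv1 hw1 heq' hyy ?_ ?_ ?_ ?_
    · rw [M.self]; omega
    · rw [M.self]; omega
    · omega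
    · rw [M.symm]; omega
  have hclose2 : M.d (u v • p) (u w • p) ≤ 24 * D := by
    have t1 := M.tri (u v • p) (q v) (u w • p)
    have t2 := M.tri (q v) (q w) (u w • p)
    have t3 := M.symm (q w) (u w • p)
    omega
  -- the key consequence
  have key : ∀ (i j i' j' : ℕ), M.d ((g ^ (m₀ * i) * c ^ (m₀ * j)) • p)
      ((g ^ (m₀ * i') * c ^ (m₀ * j')) • p) ≤ 24 * D →
      g ^ ((i' : ℤ) - i) * c ^ ((j' : ℤ) - j) = 1 := by
    intro i j i' j' hd
    have hcomm : Commute (g ^ ((i' : ℤ) - i) * c ^ ((j' : ℤ) - j)) c :=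
      (hg.zpow_left _).mul_left ((Commute.refl c).zpow_left _)
    apply h.step5 hI7 hc x hcomm
    by_contra hfin
    have h3 := h.A3 _ hfin p m₀
    have h4 : (g ^ (m₀ * i) * c ^ (m₀ * j)) *
        (g ^ ((i' : ℤ) - i) * c ^ ((j' : ℤ) - j)) ^ m₀ = g ^ (m₀ * i') * c ^ (m₀ * j') := by
      have hgc : Commute (g ^ ((i' : ℤ) - i)) (c ^ ((j' : ℤ) - j)) :=
        (hg.zpow_left _).zpow_right _
      have hgc' : Commute (c ^ (m₀ * j)) ((g ^ ((i' : ℤ) - i)) ^ m₀) :=
        ((hg.symm.pow_left _).zpow_right _).pow_right _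
      have e1 : g ^ (m₀ * i) * (g ^ ((i' : ℤ) - i)) ^ m₀ = g ^ (m₀ * i') := by
        rw [← zpow_natCast (g ^ ((i' : ℤ) - i)) m₀, ← zpow_mul, ← zpow_natCast g (m₀ * i),
          ← zpow_natCast g (m₀ * i'), ← zpow_add]
        congr 1
        push_cast; ring
      have e2 : c ^ (m₀ * j) * (c ^ ((j' : ℤ) - j)) ^ m₀ = c ^ (m₀ * j') := by
        rw [← zpow_natCast (c ^ ((j' : ℤ) - j)) m₀, ← zpow_mul, ← zpow_natCast c (m₀ * j),
          ← zpow_natCast c (m₀ * j'), ← zpow_add]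
        congr 1
        push_cast; ring
      rw [hgc.mul_pow, ← e1, ← e2]
      simp only [mul_assoc]
      congr 1
      rw [← mul_assoc, hgc'.eq, mul_assoc]
    rw [← h4, mul_smul _ ((g ^ ((i' : ℤ) - i) * c ^ ((j' : ℤ) - j)) ^ m₀), h.iso] at hd
    have h5 : T * M.d p ((g ^ ((i' : ℤ) - i) * c ^ ((j' : ℤ) - j)) ^ m₀ • p) ≤ T * (24 * D) :=
      Nat.mul_le_mul_left _ hd
    have h6 : T * (24 * D) ≤ 30 * D * T := by nlinarith
    omega
  have hk := key v.1 v.2 w.1 w.2 hclose2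
  have hi_ne : v.1 ≠ w.1 := by
    intro hii
    rw [hii, sub_self, zpow_zero, one_mul] at hk
    have hjj : v.2 ≠ w.2 := fun hjj => hvw (Prod.ext hii hjj)
    apply hc
    rw [isOfFinOrder_iff_zpow_eq_one]
    exact ⟨_, by omega, hk⟩
  have hgc : g ^ ((w.1 : ℤ) - v.1) = c ^ (-((w.2 : ℤ) - v.2)) := by
    rw [zpow_neg]; exact eq_inv_of_mul_eq_one_left hk
  rcases Nat.lt_or_ge v.1 w.1 with hlt | hge
  · refine ⟨w.1 - v.1, by omega, by omega, -((w.2 : ℤ) - v.2), ?_⟩
    simp only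
    rw [← hgc, ← zpow_natCast, Nat.cast_sub hlt.le]
  · have hlt : w.1 < v.1 := lt_of_le_of_ne hge (Ne.symm hi_ne)
    refine ⟨v.1 - w.1, by omega, by omega, ((w.2 : ℤ) - v.2), ?_⟩
    simp only
    rw [← inv_inj, ← zpow_neg, ← hgc, ← zpow_natCast, ← zpow_neg, Nat.cast_sub hlt.le]
    congr 1
    ring

/-- The centralizer of an element of infinite order is cyclic. -/
theorem QStage.cyclic (h : QStage Q X M D L A T) (hI1 : I1Statement)
    (hI2 : I2Statement) (hI7 : I7Statement) {c : Q} (hc : ¬ IsOfFinOrder c) (x : X) :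
    ∃ k : Q, ∀ g : Q, Commute g c ↔ g ∈ Subgroup.zpowers k := by
  set C : Subgroup Q := Subgroup.centralizer {c} with hC
  have hmem : ∀ g : Q, g ∈ C ↔ Commute g c := by
    intro g
    rw [hC, Subgroup.mem_centralizer_singleton_iff]
    exact ⟨fun h => h, fun h => h⟩
  set K := 2 * (30 * D * T + 1) * M.d x (c • x) with hK
  have hcommC : ∀ a b : C, a * b = b * a := by
    intro a b
    apply Subtype.ext
    exact (h.step4 hI2 hc x ((hmem _).1 a.2) ((hmem _).1 b.2)).eq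
  letI : CommGroup C := { (inferInstance : Group C) with mul_comm := hcommC }
  have hpow : ∀ g : C, (g : Q) ^ (K.factorial) ∈ Subgroup.zpowers c := by
    intro g
    obtain ⟨s, hs1, hs2, hs3⟩ := h.step6 hI1 hI7 hc x ((hmem _).1 g.2)
    obtain ⟨r, hr⟩ := Nat.dvd_factorial hs1 hs2
    rw [← hK] at hr
    rw [hr, pow_mul]
    exact Subgroup.pow_mem _ hs3 _
  let φ : C →* Subgroup.zpowers c :=
    { toFun := fun g => ⟨(g : Q) ^ (K.factorial), hpow g⟩
      map_one' := by apply Subtype.ext; simp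
      map_mul' := by
        intro a b
        apply Subtype.ext
        simp only [Subgroup.coe_mul]
        exact (h.step4 hI2 hc x ((hmem _).1 a.2) ((hmem _).1 b.2)).mul_pow _ }
  have hφ : Function.Injective φ := by
    rw [injective_iff_map_eq_one]
    intro a ha
    have h1 : (a : Q) ^ (K.factorial) = 1 := congrArg Subtype.val ha
    apply Subtype.ext
    apply h.step5 hI7 hc x ((hmem _).1 a.2)
    rw [isOfFinOrder_iff_pow_eq_one]
    exact ⟨_, Nat.factorial_pos _, h1⟩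
  haveI : IsCyclic C := isCyclic_of_injective φ hφ
  obtain ⟨k, hk⟩ := IsCyclic.exists_generator (α := C)
  refine ⟨(k : Q), fun g => ⟨fun hg => ?_, fun hg => ?_⟩⟩
  · obtain ⟨m, hm⟩ := hk ⟨g, (hmem g).2 hg⟩
    refine ⟨m, ?_⟩
    have := congrArg Subtype.val hm
    simpa using this
  · obtain ⟨m, hm⟩ := hg
    rw [← hm]
    exact ((hmem _).1 k.2).zpow_left m

end

/-- Module Z. -/
theorem z_of (hI1 : I1Statement) (hI2 : I2Statement) (hI7 : I7Statement) :
    ZStatement := by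
  intro Γ _ z X _ M D L A T hst c hc
  obtain ⟨x⟩ := hst.ne
  haveI hN : (Subgroup.zpowers z).Normal := by
    constructor
    rintro _ ⟨m, rfl⟩ g
    refine ⟨m, ?_⟩
    have : Commute g (z ^ m) := Commute.zpow_right (hst.central g) m
    simp only
    rw [this.eq]; group
  let ψ : Γ ⧸ Subgroup.zpowers z →* Equiv.Perm X :=
    QuotientGroup.lift (Subgroup.zpowers z) (MulAction.toPermHom Γ X) (by
      intro g hg
      obtain ⟨m, rfl⟩ := hg
      simp only
      have hz : MulAction.toPermHom Γ X z = 1 := by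
        ext v
        exact hst.ztriv v
      rw [MonoidHom.mem_ker, map_zpow, hz, one_zpow])
  letI act : MulAction (Γ ⧸ Subgroup.zpowers z) X := MulAction.compHom X ψ
  have hsmul : ∀ (g : Γ) (v : X), (QuotientGroup.mk g : Γ ⧸ Subgroup.zpowers z) • v = g • v :=
    fun g v => rfl
  have hmk : ∀ g : Γ, (QuotientGroup.mk g : Γ ⧸ Subgroup.zpowers z) = 1 ↔
      g ∈ Subgroup.zpowers z := fun g => QuotientGroup.eq_one_iff g
  have hFO : ∀ g : Γ, IsOfFinOrder (QuotientGroup.mk g : Γ ⧸ Subgroup.zpowers z) ↔ FO z g := by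
    intro g
    rw [isOfFinOrder_iff_pow_eq_one]
    constructor
    · rintro ⟨m, hm, h1⟩
      exact ⟨m, hm, (hmk _).1 (by rw [QuotientGroup.mk_pow]; exact h1)⟩
    · rintro ⟨m, hm, h1⟩
      exact ⟨m, hm, by rw [← QuotientGroup.mk_pow]; exact (hmk _).2 h1⟩
  have hCM : ∀ g k : Γ, Commute (QuotientGroup.mk g : Γ ⧸ Subgroup.zpowers z)
      (QuotientGroup.mk k) ↔ CM z g k := by
    intro g k
    unfold CM
    rw [← hmk]
    simp only [QuotientGroup.mk_mul, QuotientGroup.mk_inv]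
    rw [mul_inv_eq_one, mul_inv_eq_iff_eq_mul]
    exact ⟨fun h => h, fun h => h⟩
  have hQ : QStage (Γ ⧸ Subgroup.zpowers z) X M D L A T := by
    refine ⟨hst.hD, hst.hL, ?_, hst.hyp, ?_, ?_, ?_⟩
    · intro g u v
      obtain ⟨g, rfl⟩ := QuotientGroup.mk_surjective g
      exact hst.iso g u v
    · intro g₁ g₂
      obtain ⟨g₁, rfl⟩ := QuotientGroup.mk_surjective g₁
      obtain ⟨g₂, rfl⟩ := QuotientGroup.mk_surjective g₂
      intro u v h1 h2 h3 h4 h5
      exact (hCM _ _).2 (hst.A1 g₁ g₂ u v h1 h2 h3 h4 h5)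
    · intro g
      obtain ⟨g, rfl⟩ := QuotientGroup.mk_surjective g
      intro u v h1 h2 h3 h4
      exact hst.A2 g u v (fun h => h1 ((hmk _).2 h)) ((hFO _).1 h2) h3 h4
    · intro g
      obtain ⟨g, rfl⟩ := QuotientGroup.mk_surjective g
      intro h1 u m
      rw [← QuotientGroup.mk_pow]
      exact hst.A3 g (fun h => h1 ((hFO _).2 h)) u m
  obtain ⟨k, hk⟩ := hQ.cyclic hI1 hI2 hI7 (c := QuotientGroup.mk c)
    (fun h => hc ((hFO _).1 h)) x
  obtain ⟨k, rfl⟩ := QuotientGroup.mk_surjective k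
  refine ⟨k, fun g => ?_⟩
  rw [← hCM, hk]
  constructor
  · rintro ⟨i, hi⟩
    simp only at hi
    rw [← QuotientGroup.mk_zpow, QuotientGroup.eq] at hi
    obtain ⟨j, hj⟩ := hi
    simp only at hj
    refine ⟨i, j, ?_⟩
    rw [hj]; group
  · rintro ⟨i, j, rfl⟩
    refine ⟨i, ?_⟩
    simp only
    rw [QuotientGroup.mk_mul, QuotientGroup.mk_zpow, (hmk _).2 ⟨j, rfl⟩, mul_one]

end Pool.Agent.Lib.MP_7f190d_al.H77
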